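import Mathlib
import Pool.Agent.H21.Stair.Final

/-!
# Critical percolation below a staircase: a limit theorem in all directions

`t : ℤ → ℤ` is antitone with `t (x + a) = t x - b`: the graph of a staircase which is invariant
under the translation by `(a, -b)`.  Below the staircase each unit square carries one of its two
diagonals, chosen by a fair coin (`stairGraph`): on the vertices `(x, y)` with `x + y` even this is
critical bond percolation on (a rotated copy of) the square lattice, on the vertices with `x + y`
odd it is the dual percolation.  The vertices `(x, y)` with `t x ≤ y ≤ t (x - 1)` are the vertices on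
the staircase.
-/

namespace Pool.Agent.H21.Spare.StaircaseLimit

open Pool.Agent.H21.Stair

/-- The phase of the vertex `(x, y)` of the staircase `t`.  The staircase is followed from the left to
the right, so that its steps go to the right or down; `y = t (x - 1)` means that the step ending at
`(x, y)` is horizontal and `y = t x` means that the step starting at `(x, y)` is horizontal. -/
noncomputable def phase (t : ℤ → ℤ) (x y : ℤ) : ℂ :=
  if y = t (x - 1) then
    if y = t x then 1 else 2 / Real.sqrt 3 * Complex.exp (-(Real.pi / 6 * Complex.I))
  else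
    if y = t x then 1 / Real.sqrt 3 * Complex.exp (-(Real.pi / 6 * Complex.I))
    else Complex.exp (-(Real.pi / 3 * Complex.I))

/-- **Limit theorem for staircases.** -/
theorem result : ∀ ε : ℝ, 0 < ε → ∃ N : ℕ, ∀ (a b : ℕ) (t : ℤ → ℤ), 1 ≤ a → N ≤ a + b →
    Even (a + b) → Antitone t → (∀ x, t (x + a) = t x - b) →
    ‖∑ x ∈ Finset.range a, ∑ y ∈ Finset.Icc (t x) (t (x - 1)),
        phase t x y * ((stairMeasure a).real {ω | SWinds a b t ω (x, y)} : ℂ)
      - Real.Gamma (5 / 6) / Real.sqrt Real.pi * ((a : ℂ) - b * Complex.I) ^ (2 / 3 : ℂ)‖
      ≤ ε * ‖(a : ℂ) - b * Complex.I‖ ^ (2 / 3 : ℝ) := by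
  intro ε hε
  obtain ⟨N, hN⟩ := main ε hε
  refine ⟨N, fun a b t ha hab hev ht hper => ?_⟩
  have h := hN a b t ha hab hev ht hper
  have e : ∀ x y : ℤ, Pool.Agent.H21.Stair.phase (decide (y = t (x - 1))) (decide (y = t x))
      = phase t x y := by
    intro x y
    unfold Pool.Agent.H21.Stair.phase phase
    simp only [decide_eq_true_eq]
  simp only [e] at h
  exact h

end Pool.Agent.H21.Spare.StaircaseLimit
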